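import Pool.Agent.U865.PQ.Sel
import Pool.Agent.U865.PQ.Tor
import Pool.Agent.U865.PV.All

/-!
# MP_ddf76b_nt: the `p`-parity conjecture and the decomposition groups at `p`
-/

set_option autoImplicit false

open Module NumberField IntermediateField
open scoped Classical

namespace Pool.Agent.Results.MP_ddf76b_nt.LocalTwoPart

open Pool.Agent.U865.PQ
open Pool.Agent.U865.PP (Theory Tors HasIsogeny InNormalizer baseChange_baseChange
  elliptic_baseChange image)
open Pool.Agent.U865.PV (exists_galois)

/-- The shape of the test curves `E` over `F`, with respect to the Galois extension `L` of `F`: the group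
`G = Gal(L/F)` has a normal cyclic subgroup `C` of odd order whose quotient is a `2`-group, which
induces on the quotients of squarefree order `e` of `C` all automorphisms of order a power of two which
are local at `p` (`LocalAction`); the elements of prime order induced by `C` on the points of prime
order `l` satisfy `TorsionBound`; if `E` has `l ^ 2` points `P` over `L` with `l P = 0`, `l` a prime
number, then `E` has an isogeny of degree `l` over `F` or the image of `G` in the automorphism group of
`E[l]` is contained in the normalizer of a Cartan subgroup. -/
def IsTest (p : ℕ) (F L : Type) [Field F] [Field L] [Algebra F L] (E : WeierstrassCurve F) :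
    Prop :=
  (∃ c : Gal(L/F), LocalAction p c ∧ TorsionBound p E c) ∧
    ∀ l : ℕ, l.Prime → Nat.card (Tors l (E.baseChange L)) = l ^ 2 →
      HasIsogeny l F L E ∨ InNormalizer l F L E

/-- If the `p`-parity conjecture fails for `E` over `K`, there is a field `F` between `K` and `L` which is
maximal among the fields over which it fails, with `Gal(L/F)` and `E` over `F` as in `IsTest`. -/
def MaximalFailure (T : Theory) (p : ℕ) (K L : Type) [Field K] [NumberField K] [Field L]
    [NumberField L] [Algebra K L] (E : WeierstrassCurve K) : Prop :=
  ¬ T.Parity K E →
    ∃ (F : Type) (_ : Field F) (_ : NumberField F) (_ : Algebra K F) (_ : Algebra F L),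
      IsScalarTower K F L ∧ IsGalois F L ∧ ¬ T.Parity F (E.baseChange F) ∧
      IsTest p F L (E.baseChange F) ∧
      ∀ (F' : Type) [Field F'] [NumberField F'] [Algebra K F'] [Algebra F F'] [Algebra F' L]
        [IsScalarTower K F F'] [IsScalarTower K F' L], finrank F' L < finrank F L →
        T.Parity F' (E.baseChange F')

lemma isTest {p : ℕ} {F L : Type} [Field F] [NumberField F] [Field L] [NumberField L]
    [Algebra F L] [IsGalois F L] (E : WeierstrassCurve F) (hyp : ∃ c : Gal(L/F), LocalAction p c) :
    IsTest p F L E := by
  have hfd : FiniteDimensional F L := inferInstance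
  obtain ⟨c, hc⟩ := hyp
  obtain ⟨h1, h2, h3, -⟩ := id hc
  refine ⟨⟨c, hc, torsionBound p E hc⟩, fun l hl hcard => image hl E hcard ⟨c, h1, fun g => ?_, h3⟩⟩
  obtain ⟨j, hj⟩ := h2 g
  rw [hj]
  exact Subgroup.pow_mem _ (Subgroup.mem_zpowers c) j

/-- **The `p`-parity conjecture has to be proved over fields with special Galois groups.** Let `rk` be
the `p^∞`-Selmer rank and `w` the root number (the properties which are used are `Control` and
`RootNumbers`), and let `E` be an elliptic curve over the number field `K`.

(1) Let `L` be a finite Galois extension of `K`. If the `p`-parity conjecture fails for `E` over `K`,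
there is a field `F` between `K` and `L` over which it fails, while it holds over all the larger fields
between `F` and `L`, such that the group `G = Gal(L/F)` has a normal cyclic subgroup `C` of odd order
`n`, the quotient `G / C` is a `2`-group, and the following holds. If `e` is a squarefree divisor of
`n` which is prime to `p`, every power of `p` in `(ℤ / e)ˣ` of order a power of two acts on the
quotient of order `e` of `C` as an inner automorphism of `G`; if `p` divides `n`, all automorphisms of
order a power of two of the quotient of order `p` of `C` are induced by inner automorphisms of `G`.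
If `E` has `l ^ 2` points `P` with `l P = 0` over `L`, `l` a prime number, then `E` has an isogeny of
degree `l` over `F`, or the image of `G` in `Aut(E[l])` normalises a Cartan subalgebra; and if an
element of `C` acts on these points with prime order `q ≠ l`, then `l` and the elements of
order a power of two in the subgroup generated by `p` (for `q = p`: in the whole group) generate a
subgroup of `(ℤ / q)ˣ` with at most two elements.

(2) Let `M` be a finite extension of `K`. The `p`-parity conjecture holds for `E` over all finite
extensions of `K` if and only if it holds over those finite extensions `F` of `K` which have a Galois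
extension `L` containing `M` with the properties in (1). -/
theorem result {p : ℕ} [Fact p.Prime] {T : Theory} (hT : Control p T) (hw : RootNumbers T)
    {K : Type} [Field K] [NumberField K] (E : WeierstrassCurve K) (hE : E.IsElliptic) :
    (∀ (L : Type) [Field L] [NumberField L] [Algebra K L] [IsGalois K L],
      MaximalFailure T p K L E) ∧
    ∀ (M : Type) [Field M] [NumberField M] [Algebra K M],
      (∀ (F : Type) [Field F] [NumberField F] [Algebra K F], T.Parity F (E.baseChange F)) ↔
      ∀ (F L : Type) [Field F] [NumberField F] [Field L] [NumberField L] [Algebra K F]
        [Algebra K L] [Algebra F L] [IsScalarTower K F L] [IsGalois F L],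
        Nonempty (M →ₐ[K] L) → IsTest p F L (E.baseChange F) → T.Parity F (E.baseChange F) := by
  refine ⟨fun L _ _ _ _ hfail => ?_, fun M _ _ _ => ⟨fun h F L _ _ _ _ _ _ _ _ _ _ _ => h F,
    fun h F₀ _ _ _ => ?_⟩⟩
  · obtain ⟨F, i1, i2, i3, i4, i5, i6, h1, h2, h3⟩ := exists_max (L := L) hT hw hE hfail
    exact ⟨F, i1, i2, i3, i4, i5, i6, h1, isTest _ h2, h3⟩
  · by_contra hfail
    obtain ⟨L, j1, j2, j3, j4, j5, j6, hM⟩ := exists_galois K F₀ M
    obtain ⟨F, i1, i2, i3, i4, i5, i6, h1, h2, -⟩ :=
      exists_max (L := L) hT hw (elliptic_baseChange hE) hfail
    let _ : Algebra K F := ((algebraMap F₀ F).comp (algebraMap K F₀)).toAlgebra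
    have k1 : IsScalarTower K F₀ F := IsScalarTower.of_algebraMap_eq fun x => rfl
    have k2 : IsScalarTower K F L := IsScalarTower.of_algebraMap_eq fun x => by
      rw [IsScalarTower.algebraMap_apply K F₀ F, ← IsScalarTower.algebraMap_apply F₀ F L,
        ← IsScalarTower.algebraMap_apply K F₀ L]
    rw [baseChange_baseChange] at h1
    exact h1 (h F L hM (isTest _ h2))

end Pool.Agent.Results.MP_ddf76b_nt.LocalTwoPart
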