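import Pool.Agent.U865.PQ.Pair
import Pool.Agent.U865.PV.All

/-!
# MP_ddf76b_nt: the parities of the Selmer ranks at two primes
-/

set_option autoImplicit false

open Module NumberField IntermediateField
open scoped Classical

namespace Pool.Agent.Results.MP_ddf76b_nt.TwoPrimes

open Pool.Agent.U865.PQ (PairAction pair_action)
open Pool.Agent.U865.PP (invDim Tors HasIsogeny InNormalizer baseChange_baseChange
  elliptic_baseChange image)
open Pool.Agent.U865.PV (exists_galois)

/-- A function on the elliptic curves over number fields with values in the natural numbers. -/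
abbrev Rank : Type 1 := ∀ (K : Type) [Field K] [NumberField K], WeierstrassCurve K → ℕ

/-- The property of the `p^∞`-Selmer rank `r` which is used: for a Galois extension `L / K` there is a
representation of `Gal(L/K)` on a vector space of finite dimension over `ℚ_p` (the Pontryagin dual of
the `p^∞`-Selmer group of `E` over `L`, tensored with `ℚ_p`) such that the rank of `E` over the field
of invariants of a subgroup `H` is the dimension of the space of invariants of `H`. -/
def Control (p : ℕ) [Fact p.Prime] (r : Rank) : Prop :=
  ∀ (K L : Type) [Field K] [NumberField K] [Field L] [NumberField L] [Algebra K L]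
    [IsGalois K L] (E : WeierstrassCurve K), E.IsElliptic →
    ∃ (V : Type) (_ : AddCommGroup V) (_ : Module ℚ_[p] V) (ρ : Representation ℚ_[p] Gal(L/K) V),
      FiniteDimensional ℚ_[p] V ∧ r K E = invDim ρ ⊤ ∧
      ∀ H : Subgroup Gal(L/K), r (fixedField H) (E.baseChange (fixedField H)) = invDim ρ H

/-- The ranks `r K E` and `s K E` have the same parity. -/
def Same (r s : Rank) (K : Type) [Field K] [NumberField K] (E : WeierstrassCurve K) : Prop :=
  (-1 : ℤˣ) ^ r K E = (-1) ^ s K E

section

variable {p l : ℕ} [Fact p.Prime] [Fact l.Prime] {r s : Rank}

theorem action_of_fail (hr : Control p r) (hs : Control l s) {K L : Type} [Field K]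
    [NumberField K] [Field L] [NumberField L] [Algebra K L] [IsGalois K L]
    {E : WeierstrassCurve K} (hE : E.IsElliptic) (hfail : ¬ Same r s K E)
    (hup : ∀ H : Subgroup Gal(L/K), H ≠ ⊤ →
      Same r s (fixedField H) (E.baseChange (fixedField H))) :
    ∃ c : Gal(L/K), PairAction p l c := by
  have hfd : FiniteDimensional K L := inferInstance
  obtain ⟨V, i1, i2, ρ, i3, hK, hH⟩ := hr K L E hE
  obtain ⟨V', j1, j2, ρ', j3, hK', hH'⟩ := hs K L E hE
  refine pair_action ρ ρ' (fun H hne => ?_) ?_
  · rw [← hH', ← hH]
    exact (hup H hne).symm
  · rw [← hK', ← hK]
    exact fun h => hfail h.symm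

/-- **Existence of a maximal field for which the conjecture fails.** -/
theorem exists_max (hr : Control p r) (hs : Control l s) {K L : Type} [Field K] [NumberField K]
    [Field L] [NumberField L] [Algebra K L] [IsGalois K L] {E : WeierstrassCurve K}
    (hE : E.IsElliptic) (hfail : ¬ Same r s K E) :
    ∃ (F : Type) (_ : Field F) (_ : NumberField F) (_ : Algebra K F) (_ : Algebra F L),
      IsScalarTower K F L ∧ IsGalois F L ∧ ¬ Same r s F (E.baseChange F) ∧
      (∃ c : Gal(L/F), PairAction p l c) ∧
      ∀ (F' : Type) [Field F'] [NumberField F'] [Algebra K F'] [Algebra F F'] [Algebra F' L]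
        [IsScalarTower K F F'] [IsScalarTower K F' L], finrank F' L < finrank F L →
        Same r s F' (E.baseChange F') := by
  have key : ∀ d : ℕ, ∀ (F : Type) [Field F] [NumberField F] [Algebra K F] [Algebra F L]
      [IsScalarTower K F L], finrank F L = d → ¬ Same r s F (E.baseChange F) →
    ∃ (F : Type) (_ : Field F) (_ : NumberField F) (_ : Algebra K F) (_ : Algebra F L),
      IsScalarTower K F L ∧ IsGalois F L ∧ ¬ Same r s F (E.baseChange F) ∧
      (∃ c : Gal(L/F), PairAction p l c) ∧
      ∀ (F' : Type) [Field F'] [NumberField F'] [Algebra K F'] [Algebra F F'] [Algebra F' L]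
        [IsScalarTower K F F'] [IsScalarTower K F' L], finrank F' L < finrank F L →
        Same r s F' (E.baseChange F') := by
    intro d
    induction d using Nat.strong_induction_on with
    | _ d ih =>
      intro F _ _ _ _ _ hd hF
      by_cases hall : ∀ (F' : Type) [Field F'] [NumberField F'] [Algebra K F'] [Algebra F F']
          [Algebra F' L] [IsScalarTower K F F'] [IsScalarTower K F' L],
          finrank F' L < finrank F L → Same r s F' (E.baseChange F')
      · have hgal : IsGalois F L := IsGalois.tower_top_of_isGalois K F L
        refine ⟨F, inferInstance, inferInstance, inferInstance, inferInstance, inferInstance, hgal,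
          hF, ?_, hall⟩
        refine action_of_fail hr hs (elliptic_baseChange hE) hF fun H hH => ?_
        have h1 : finrank F (fixedField H) * finrank (fixedField H) L = finrank F L :=
          Module.finrank_mul_finrank _ _ _
        have h2 : finrank F (fixedField H) ≠ 1 := by
          intro h3
          rw [IntermediateField.finrank_eq_one_iff] at h3
          apply hH
          rw [← IntermediateField.fixingSubgroup_fixedField H, h3,
            IntermediateField.fixingSubgroup_bot]
        have h3 : 0 < finrank F (fixedField H) := finrank_pos
        have h4 : 0 < finrank (fixedField H) L := finrank_pos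
        have h5 : finrank (fixedField H) L < finrank F L := by
          rw [← h1]
          exact lt_mul_of_one_lt_left h4 (by omega)
        have : IsScalarTower K (fixedField H) L := IsScalarTower.of_algebraMap_eq fun x => rfl
        have : IsScalarTower K F (fixedField H) := IsScalarTower.of_algebraMap_eq fun x =>
          Subtype.ext (IsScalarTower.algebraMap_apply K F L x)
        have h6 := hall (fixedField H) h5
        rwa [← baseChange_baseChange (F := F)] at h6
      · push Not at hall
        obtain ⟨F', i1, i2, i3, i4, i5, i6, i7, hlt, hF'⟩ := hall
        exact ih _ (hd ▸ hlt) F' rfl hF'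
  have h2 : E.baseChange K = E := E.map_id
  refine key _ K rfl ?_
  rwa [h2]

end

/-- The shape of the test curves `E` over `F`, with respect to the Galois extension `L` of `F`: the group
`G = Gal(L/F)` has a normal cyclic subgroup `C` of odd order whose quotient is a `2`-group, with
`PairAction`; if `E` has `q ^ 2` points `P` over `L` with `q P = 0`, `q` a prime number, then `E` has an
isogeny of degree `q` over `F` or the image of `G` in the automorphism group of `E[q]` is contained in
the normalizer of a Cartan subgroup. -/
def IsTest (p l : ℕ) (F L : Type) [Field F] [Field L] [Algebra F L] (E : WeierstrassCurve F) :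
    Prop :=
  (∃ c : Gal(L/F), PairAction p l c) ∧
    ∀ q : ℕ, q.Prime → Nat.card (Tors q (E.baseChange L)) = q ^ 2 →
      HasIsogeny q F L E ∨ InNormalizer q F L E

/-- If the parities of the ranks `r` and `s` of `E` over `K` are different, there is a field `F` between
`K` and `L` which is maximal among the fields over which they are different, with `Gal(L/F)` and
`E` over `F` as in `IsTest`. -/
def MaximalDifference (r s : Rank) (p l : ℕ) (K L : Type) [Field K] [NumberField K] [Field L]
    [NumberField L] [Algebra K L] (E : WeierstrassCurve K) : Prop :=
  ¬ Same r s K E →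
    ∃ (F : Type) (_ : Field F) (_ : NumberField F) (_ : Algebra K F) (_ : Algebra F L),
      IsScalarTower K F L ∧ IsGalois F L ∧ ¬ Same r s F (E.baseChange F) ∧
      IsTest p l F L (E.baseChange F) ∧
      ∀ (F' : Type) [Field F'] [NumberField F'] [Algebra K F'] [Algebra F F'] [Algebra F' L]
        [IsScalarTower K F F'] [IsScalarTower K F' L], finrank F' L < finrank F L →
        Same r s F' (E.baseChange F')

lemma isTest {p l : ℕ} {F L : Type} [Field F] [NumberField F] [Field L] [NumberField L]
    [Algebra F L] [IsGalois F L] (E : WeierstrassCurve F) (hyp : ∃ c : Gal(L/F), PairAction p l c) :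
    IsTest p l F L E := by
  have hfd : FiniteDimensional F L := inferInstance
  obtain ⟨c, hc⟩ := hyp
  obtain ⟨h1, h2, h3, -⟩ := id hc
  refine ⟨⟨c, hc⟩, fun q hq hcard => image hq E hcard ⟨c, h1, fun g => ?_, h3⟩⟩
  obtain ⟨j, hj⟩ := h2 g
  rw [hj]
  exact Subgroup.pow_mem _ (Subgroup.mem_zpowers c) j

/-- **The parities of the Selmer ranks at two primes.** Let `p` and `l` be prime numbers, let `r` and `s`
be the `p^∞`- and the `l^∞`-Selmer ranks (the property which is used is `Control`; root numbers do not
occur), and let `E` be an elliptic curve over the number field `K`.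

(1) Let `L` be a finite Galois extension of `K`. If the parities of `r` and `s` are different for `E` over
`K`, there is a field `F` between `K` and `L` over which they are different, while they are equal over
all the larger fields between `F` and `L`, such that the group `G = Gal(L/F)` has a normal cyclic
subgroup `C` of odd order `n`, the quotient `G / C` is a `2`-group, and for every squarefree divisor
`e` of `n` all automorphisms of order a power of two of the quotient of order `e` of `C` which are
local at `p` are induced by inner automorphisms of `G`, or all those which are local at `l` are. If `E`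
has `q ^ 2` points `P` with `q P = 0` over `L`, `q` a prime number, then `E` has an isogeny of degree
`q` over `F`, or the image of `G` in `Aut(E[q])` normalises a Cartan subalgebra.

(2) Let `M` be a finite extension of `K`. The parities are equal over all finite extensions of `K` if and
only if they are equal over those finite extensions `F` of `K` which have a Galois extension `L`
containing `M` with the properties in (1). -/
theorem result {p l : ℕ} [Fact p.Prime] [Fact l.Prime] {r s : Rank} (hr : Control p r)
    (hs : Control l s) {K : Type} [Field K] [NumberField K] (E : WeierstrassCurve K)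
    (hE : E.IsElliptic) :
    (∀ (L : Type) [Field L] [NumberField L] [Algebra K L] [IsGalois K L],
      MaximalDifference r s p l K L E) ∧
    ∀ (M : Type) [Field M] [NumberField M] [Algebra K M],
      (∀ (F : Type) [Field F] [NumberField F] [Algebra K F], Same r s F (E.baseChange F)) ↔
      ∀ (F L : Type) [Field F] [NumberField F] [Field L] [NumberField L] [Algebra K F]
        [Algebra K L] [Algebra F L] [IsScalarTower K F L] [IsGalois F L],
        Nonempty (M →ₐ[K] L) → IsTest p l F L (E.baseChange F) →
          Same r s F (E.baseChange F) := by
  refine ⟨fun L _ _ _ _ hfail => ?_, fun M _ _ _ => ⟨fun h F L _ _ _ _ _ _ _ _ _ _ _ => h F,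
    fun h F₀ _ _ _ => ?_⟩⟩
  · obtain ⟨F, i1, i2, i3, i4, i5, i6, h1, h2, h3⟩ := exists_max (L := L) hr hs hE hfail
    exact ⟨F, i1, i2, i3, i4, i5, i6, h1, isTest _ h2, h3⟩
  · by_contra hfail
    obtain ⟨L, j1, j2, j3, j4, j5, j6, hM⟩ := exists_galois K F₀ M
    obtain ⟨F, i1, i2, i3, i4, i5, i6, h1, h2, -⟩ :=
      exists_max (L := L) hr hs (elliptic_baseChange hE) hfail
    let _ : Algebra K F := ((algebraMap F₀ F).comp (algebraMap K F₀)).toAlgebra
    have k1 : IsScalarTower K F₀ F := IsScalarTower.of_algebraMap_eq fun x => rfl
    have k2 : IsScalarTower K F L := IsScalarTower.of_algebraMap_eq fun x => by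
      rw [IsScalarTower.algebraMap_apply K F₀ F, ← IsScalarTower.algebraMap_apply F₀ F L,
        ← IsScalarTower.algebraMap_apply K F₀ L]
    rw [baseChange_baseChange] at h1
    exact h1 (h F L hM (isTest _ h2))

end Pool.Agent.Results.MP_ddf76b_nt.TwoPrimes
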